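import Mathlib

/-! # From one point in every short interval to a frequency statement (helper683) -/

namespace Pool.Agent.H683R3.SQ

open Finset Filter

/-- the record scale `log x (log₂ x)² log₄ x / (log₃ x)²` -/
noncomputable def rec (x : ℝ) : ℝ :=
  Real.log x * (Real.log (Real.log x)) ^ 2 * Real.log (Real.log (Real.log (Real.log x))) /
    (Real.log (Real.log (Real.log x))) ^ 2

theorem rec_power : ∀ᶠ x : ℝ in atTop, ∀ ε : ℝ, 1 / Real.sqrt (Real.log x) ≤ ε → ε ≤ 1 →
    ε / 8 * rec x ≤ rec (x ^ ε) := by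
  have t1 : Tendsto (fun x : ℝ => Real.log (Real.log x)) atTop atTop :=
    Real.tendsto_log_atTop.comp Real.tendsto_log_atTop
  have t2 : Tendsto (fun x : ℝ => Real.log (Real.log (Real.log x))) atTop atTop :=
    Real.tendsto_log_atTop.comp t1
  have t3 : Tendsto (fun x : ℝ => Real.log (Real.log (Real.log (Real.log x)))) atTop atTop :=
    Real.tendsto_log_atTop.comp t2
  have e1 : ∀ᶠ x : ℝ in atTop, 0 < x := eventually_gt_atTop 0
  filter_upwards [e1, Real.tendsto_log_atTop.eventually_ge_atTop 1,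
    t1.eventually_ge_atTop 4, t2.eventually_ge_atTop (max 4 (2 * Real.log 2)),
    t3.eventually_ge_atTop (max 1 (2 * Real.log 2))] with x hx0 hL1 hL2 hL3 hL4 ε hεL hε1
  have hsq : 0 < Real.sqrt (Real.log x) := Real.sqrt_pos.2 (by linarith)
  have hε : 0 < ε := lt_of_lt_of_le (by positivity) hεL
  have hlogx : Real.log (x ^ ε) = ε * Real.log x := Real.log_rpow hx0 ε
  set L := Real.log x with hL
  have hLpos : 0 < L := by linarith
  set L2 := Real.log L with hL2d
  set L3 := Real.log L2 with hL3d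
  set L4 := Real.log L3 with hL4d
  have hL2' : 4 ≤ L2 := hL2
  have hL2'' : -2 * Real.log ε ≤ L2 := by
    have h := Real.log_le_log (by positivity : (0 : ℝ) < 1 / Real.sqrt L) hεL
    rw [Real.log_div one_ne_zero hsq.ne', Real.log_one, Real.log_sqrt hLpos.le] at h
    linarith
  have hL3' : 4 ≤ L3 := (le_max_left _ _).trans hL3
  have hL3'' : 2 * Real.log 2 ≤ L3 := (le_max_right _ _).trans hL3
  have hL4' : 1 ≤ L4 := (le_max_left _ _).trans hL4
  have hL4'' : 2 * Real.log 2 ≤ L4 := (le_max_right _ _).trans hL4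
  have hlogε : Real.log ε ≤ 0 := Real.log_nonpos hε.le hε1
  have hlog2 : 0 < Real.log 2 := Real.log_pos (by norm_num)
  -- log log (x^ε)
  have a2 : Real.log (ε * L) = Real.log ε + L2 := Real.log_mul hε.ne' hLpos.ne'
  have a2l : L2 / 2 ≤ Real.log (ε * L) := by rw [a2]; linarith
  have a2u : Real.log (ε * L) ≤ L2 := by rw [a2]; linarith
  have a2p : 0 < Real.log (ε * L) := by linarith
  have a3u : Real.log (Real.log (ε * L)) ≤ L3 := Real.log_le_log a2p a2u
  have a3l : L3 / 2 ≤ Real.log (Real.log (ε * L)) := by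
    have h := Real.log_le_log (by linarith : 0 < L2 / 2) a2l
    rw [Real.log_div (by linarith) (by norm_num)] at h
    linarith
  have a3p : 0 < Real.log (Real.log (ε * L)) := by linarith
  have a4l : L4 / 2 ≤ Real.log (Real.log (Real.log (ε * L))) := by
    have h := Real.log_le_log (by linarith : 0 < L3 / 2) a3l
    rw [Real.log_div (by linarith) (by norm_num)] at h
    linarith
  have key : rec (x ^ ε) = ε * L * (Real.log (ε * L)) ^ 2 *
      Real.log (Real.log (Real.log (ε * L))) / (Real.log (Real.log (ε * L))) ^ 2 := by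
    unfold rec
    rw [hlogx]
  have key2 : rec x = L * L2 ^ 2 * L4 / L3 ^ 2 := rfl
  rw [key, key2]
  have n1 : ε / 8 * (L * L2 ^ 2 * L4) ≤ ε * L * (Real.log (ε * L)) ^ 2 *
      Real.log (Real.log (Real.log (ε * L))) := by
    have h1 : (L2 / 2) ^ 2 ≤ (Real.log (ε * L)) ^ 2 := pow_le_pow_left₀ (by linarith) a2l 2
    have h2 : (L2 / 2) ^ 2 * (L4 / 2) ≤ (Real.log (ε * L)) ^ 2 *
        Real.log (Real.log (Real.log (ε * L))) :=
      mul_le_mul h1 a4l (by linarith) (by positivity)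
    have h3 : 0 < ε * L := by positivity
    have h4 := mul_le_mul_of_nonneg_left h2 h3.le
    nlinarith [h4]
  have n2 : (Real.log (Real.log (ε * L))) ^ 2 ≤ L3 ^ 2 := pow_le_pow_left₀ a3p.le a3u 2
  rw [mul_div_assoc' (ε / 8)]
  refine (div_le_div_of_nonneg_right n1 (by positivity)).trans ?_
  refine div_le_div_of_nonneg_left ?_ (by positivity) n2
  have h0 : 0 < Real.log (Real.log (Real.log (ε * L))) := by linarith
  positivity

/-- the number of `n ≤ X` with property `p`, if every interval `(M, M + Z]`, `M ≥ Z`, contains one -/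
theorem count_ge (p : ℕ → Prop) [DecidablePred p] (Z : ℕ) (hZ : 1 ≤ Z)
    (h : ∀ M : ℕ, Z ≤ M → ∃ x : ℕ, M < x ∧ x ≤ M + Z ∧ p x) (X : ℕ) :
    X / Z ≤ ((Icc 1 X).filter p).card + 1 := by
  choose! f hf1 hf2 hf3 using h
  have hinj : Set.InjOn (fun k => f (k * Z)) (Finset.Ico 1 (X / Z) : Finset ℕ) := by
    intro a ha b hb hab
    rw [Finset.coe_Ico, Set.mem_Ico] at ha hb
    simp only at hab
    by_contra hne
    rcases lt_or_gt_of_ne hne with hlt | hlt
    · have h1 := hf2 (a * Z) (Nat.le_mul_of_pos_left Z (by omega))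
      have h2 := hf1 (b * Z) (Nat.le_mul_of_pos_left Z (by omega))
      have h3 : (a + 1) * Z ≤ b * Z := Nat.mul_le_mul_right Z hlt
      rw [add_mul, one_mul] at h3
      omega
    · have h1 := hf2 (b * Z) (Nat.le_mul_of_pos_left Z (by omega))
      have h2 := hf1 (a * Z) (Nat.le_mul_of_pos_left Z (by omega))
      have h3 : (b + 1) * Z ≤ a * Z := Nat.mul_le_mul_right Z hlt
      rw [add_mul, one_mul] at h3
      omega
  have hmaps : ∀ k ∈ Finset.Ico 1 (X / Z), f (k * Z) ∈ (Icc 1 X).filter p := by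
    intro k hk
    rw [Finset.mem_Ico] at hk
    have h1 := hf1 (k * Z) (Nat.le_mul_of_pos_left Z (by omega))
    have h2 := hf2 (k * Z) (Nat.le_mul_of_pos_left Z (by omega))
    have h3 := hf3 (k * Z) (Nat.le_mul_of_pos_left Z (by omega))
    have h4 : (k + 1) * Z ≤ X / Z * Z := Nat.mul_le_mul_right Z hk.2
    have h5 : X / Z * Z ≤ X := Nat.div_mul_le_self X Z
    rw [add_mul, one_mul] at h4
    rw [Finset.mem_filter, Finset.mem_Icc]
    exact ⟨⟨by omega, by omega⟩, h3⟩
  have := Finset.card_le_card_of_injOn (fun k => f (k * Z)) hmaps hinj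
  rw [Nat.card_Ico] at this
  omega

end Pool.Agent.H683R3.SQ

namespace Pool.Agent.H683R3.SQ

open Finset Filter

/-- `rec x ≥ A log x` for large `x` -/
theorem rec_large (A : ℝ) : ∀ᶠ x : ℝ in atTop, A * Real.log x ≤ rec x ∧ 0 ≤ Real.log x := by
  have t1 : Tendsto (fun x : ℝ => Real.log (Real.log x)) atTop atTop :=
    Real.tendsto_log_atTop.comp Real.tendsto_log_atTop
  have t2 : Tendsto (fun x : ℝ => Real.log (Real.log (Real.log x))) atTop atTop :=
    Real.tendsto_log_atTop.comp t1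
  have t3 : Tendsto (fun x : ℝ => Real.log (Real.log (Real.log (Real.log x)))) atTop atTop :=
    Real.tendsto_log_atTop.comp t2
  have h0 := (isLittleO_log_rpow_atTop (show (0 : ℝ) < 1 / 2 by norm_num)).bound
    (show (0 : ℝ) < 1 by norm_num)
  filter_upwards [Real.tendsto_log_atTop.eventually_ge_atTop 1,
    t1.eventually_ge_atTop (max 1 A), t2.eventually_ge_atTop 1, t3.eventually_ge_atTop 1,
    t1.eventually h0] with x hL1 hL2 hL3 hL4 h
  set L := Real.log x with hL
  set L2 := Real.log L with hL2d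
  set L3 := Real.log L2 with hL3d
  set L4 := Real.log L3 with hL4d
  have h1 : 1 ≤ L2 := (le_max_left _ _).trans hL2
  have h2 : A ≤ L2 := (le_max_right _ _).trans hL2
  refine ⟨?_, by linarith⟩
  rw [Real.norm_of_nonneg (by linarith), Real.norm_of_nonneg (by positivity), one_mul] at h
  have h3 : L3 ^ 2 ≤ L2 := by
    calc L3 ^ 2 ≤ (L2 ^ (1 / 2 : ℝ)) ^ 2 := pow_le_pow_left₀ (by linarith) h 2
      _ = L2 := by
        rw [← Real.rpow_natCast, ← Real.rpow_mul (by linarith)]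
        norm_num
  have hrec : rec x = L * L2 ^ 2 * L4 / L3 ^ 2 := rfl
  rw [hrec, le_div_iff₀ (by positivity)]
  have h4 : A * L ≤ L2 * L := mul_le_mul_of_nonneg_right h2 (by linarith)
  have h5 : 0 ≤ L2 * L := by positivity
  calc A * L * L3 ^ 2 ≤ (L2 * L) * L3 ^ 2 := mul_le_mul_of_nonneg_right h4 (by positivity)
    _ ≤ (L2 * L) * L2 := mul_le_mul_of_nonneg_left h3 h5
    _ = L * L2 ^ 2 * 1 := by ring
    _ ≤ L * L2 ^ 2 * L4 := mul_le_mul_of_nonneg_left hL4 (by positivity)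

theorem freq (P : ℕ → ℝ → Prop) (hP : ∀ n a b, a ≤ b → P n b → P n a)
    (c : ℝ) (hc : 0 < c) (H : ∀ᶠ Z : ℝ in atTop, ∀ M : ℕ, Z ≤ M →
      ∃ x : ℕ, M < x ∧ (x : ℝ) ≤ M + Z ∧ P x (c * rec Z))
 :
    ∀ᶠ X : ℕ in atTop, ∀ ε : ℝ, 2 / Real.sqrt (Real.log X) ≤ ε → ε ≤ 1 →
      ∃ S : Finset ℕ, (∀ n ∈ S, 1 ≤ n ∧ n ≤ X ∧ P n (c / 16 * ε * rec X)) ∧
        (X : ℝ) ^ (1 - ε) ≤ S.card := by
  classical
  obtain ⟨Z₀, hZ⟩ := eventually_atTop.1 H
  have tX : Tendsto (fun X : ℕ => (X : ℝ)) atTop atTop := tendsto_natCast_atTop_atTop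
  have tp : Tendsto (fun X : ℕ => Real.sqrt (Real.log X)) atTop atTop :=
    Real.tendsto_sqrt_atTop.comp (Real.tendsto_log_atTop.comp tX)
  filter_upwards [tX.eventually rec_power, tp.eventually_ge_atTop (max 6 Z₀),
    tp.eventually_ge_atTop 1, eventually_ge_atTop 1] with X hrec0 hX hs1 hX1 ε hε0 hε1
  have hX1' : (1 : ℝ) ≤ X := by exact_mod_cast hX1
  have hX0 : (0 : ℝ) < X := by linarith
  have hs0 : 0 < Real.sqrt (Real.log X) := by linarith
  have hε : 0 < ε := lt_of_lt_of_le (by positivity) hε0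
  have hε2 : 1 / Real.sqrt (Real.log X) ≤ ε / 2 := by
    have e : 2 / Real.sqrt (Real.log X) = 2 * (1 / Real.sqrt (Real.log X)) := by ring
    rw [e] at hε0
    linarith
  have hrec := hrec0 (ε / 2) hε2 (by linarith)
  set Zr : ℝ := (X : ℝ) ^ (ε / 2) with hZr
  have hZrs : Real.sqrt (Real.log X) ≤ Zr := by
    have hlog : 0 ≤ Real.log X := Real.log_nonneg hX1'
    have e1 : Real.sqrt (Real.log X) ≤ Real.log X * (ε / 2) := by
      have e2 : Real.sqrt (Real.log X) = Real.log X * (1 / Real.sqrt (Real.log X)) := by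
        rw [mul_one_div]
        exact (Real.div_sqrt).symm
      calc Real.sqrt (Real.log X) = Real.log X * (1 / Real.sqrt (Real.log X)) := e2
        _ ≤ Real.log X * (ε / 2) := mul_le_mul_of_nonneg_left hε2 hlog
    have e3 : Real.log X * (ε / 2) ≤ Zr := by
      rw [hZr, Real.rpow_def_of_pos hX0]
      have := Real.add_one_le_exp (Real.log X * (ε / 2))
      linarith
    exact e1.trans e3
  have h6 : 6 ≤ Zr := ((le_max_left _ _).trans hX).trans hZrs
  have hZ0 : Z₀ ≤ Zr := ((le_max_right _ _).trans hX).trans hZrs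
  set Zn : ℕ := ⌈Zr⌉₊ with hZn
  have hZn1 : Zr ≤ Zn := Nat.le_ceil _
  have hZn2 : (Zn : ℝ) < Zr + 1 := Nat.ceil_lt_add_one (by linarith)
  have hZnpos : 1 ≤ Zn := by
    have : (0 : ℝ) < Zn := by linarith
    exact_mod_cast this
  have hcount := count_ge (fun n => P n (c / 16 * ε * rec X)) Zn hZnpos (by
    intro M hM
    have hM' : Zr ≤ (M : ℝ) := hZn1.trans (by exact_mod_cast hM)
    obtain ⟨x, hx1, hx2, hx3⟩ := hZ Zr hZ0 M hM'
    refine ⟨x, hx1, ?_, ?_⟩
    · have : (x : ℝ) ≤ (M : ℝ) + Zn := by linarith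
      exact_mod_cast this
    · refine hP x _ _ ?_ hx3
      have : c / 16 * ε * rec X = c * (ε / 2 / 8 * rec X) := by ring
      rw [this]
      exact mul_le_mul_of_nonneg_left hrec hc.le) X
  refine ⟨(Icc 1 X).filter (fun n => P n (c / 16 * ε * rec X)), ?_, ?_⟩
  · intro n hn
    rw [Finset.mem_filter, Finset.mem_Icc] at hn
    exact ⟨hn.1.1, hn.1.2, hn.2⟩
  · set K := ((Icc 1 X).filter (fun n => P n (c / 16 * ε * rec X))).card with hK
    have hZnR : (0 : ℝ) < Zn := by linarith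
    have h1 : (X : ℝ) / Zn < ((X / Zn : ℕ) : ℝ) + 1 := by
      rw [div_lt_iff₀ hZnR]
      have := Nat.lt_div_mul_add (a := X) (b := Zn) hZnpos
      have h2 : (X : ℝ) < ((X / Zn * Zn + Zn : ℕ) : ℝ) := by exact_mod_cast this
      push_cast at h2
      linarith
    have h2 : ((X / Zn : ℕ) : ℝ) ≤ (K : ℝ) + 1 := by exact_mod_cast hcount
    have h3 : (X : ℝ) / (2 * Zr) ≤ X / Zn :=
      div_le_div_of_nonneg_left hX0.le hZnR (by linarith)
    have h4 : (X : ℝ) = (X : ℝ) ^ (1 - ε) * (Zr * Zr) := by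
      rw [hZr, ← Real.rpow_add hX0, ← Real.rpow_add hX0]
      have : 1 - ε + (ε / 2 + ε / 2) = 1 := by ring
      rw [this, Real.rpow_one]
    have h5 : (X : ℝ) / (2 * Zr) = (X : ℝ) ^ (1 - ε) * (Zr / 2) := by
      have hz : Zr ≠ 0 := by linarith
      rw [div_eq_iff (by positivity)]
      calc (X : ℝ) = (X : ℝ) ^ (1 - ε) * (Zr * Zr) := h4
        _ = _ := by ring
    have h6' : 1 ≤ (X : ℝ) ^ (1 - ε) := Real.one_le_rpow hX1' (by linarith)
    have h7 : (X : ℝ) ^ (1 - ε) * 3 ≤ (X : ℝ) ^ (1 - ε) * (Zr / 2) :=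
      mul_le_mul_of_nonneg_left (by linarith) (by linarith)
    linarith

end Pool.Agent.H683R3.SQ
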