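import Pool.Agent.H683R3.SQ.Freq

/-! # From one point in every short interval to a frequency statement, with parameters
(helper683) -/

namespace Pool.Agent.H683R3.SQ

open Finset Filter

theorem freq2 {ι : Type} (P : ι → ℕ → Prop) (V : ι → ℝ → Prop)
    (H : ∀ᶠ Z : ℝ in atTop, ∀ M : ℕ, Z ≤ M → ∀ i : ι, V i Z →
      ∃ x : ℕ, M < x ∧ (x : ℝ) ≤ M + Z ∧ P i x) :
    ∀ᶠ X : ℕ in atTop, ∀ ε : ℝ, 2 / Real.sqrt (Real.log X) ≤ ε → ε ≤ 1 →
      ∀ i : ι, V i ((X : ℝ) ^ (ε / 2)) →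
      ∃ S : Finset ℕ, (∀ n ∈ S, 1 ≤ n ∧ n ≤ X ∧ P i n) ∧ (X : ℝ) ^ (1 - ε) ≤ S.card := by
  classical
  obtain ⟨Z₀, hZ⟩ := eventually_atTop.1 H
  have tX : Tendsto (fun X : ℕ => (X : ℝ)) atTop atTop := tendsto_natCast_atTop_atTop
  have tp : Tendsto (fun X : ℕ => Real.sqrt (Real.log X)) atTop atTop :=
    Real.tendsto_sqrt_atTop.comp (Real.tendsto_log_atTop.comp tX)
  filter_upwards [tp.eventually_ge_atTop (max 6 Z₀),
    tp.eventually_ge_atTop 1, eventually_ge_atTop 1] with X hX hs1 hX1 ε hε0 hε1 i hi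
  have hX1' : (1 : ℝ) ≤ X := by exact_mod_cast hX1
  have hX0 : (0 : ℝ) < X := by linarith
  have hs0 : 0 < Real.sqrt (Real.log X) := by linarith
  have hε : 0 < ε := lt_of_lt_of_le (by positivity) hε0
  have hε2 : 1 / Real.sqrt (Real.log X) ≤ ε / 2 := by
    have e : 2 / Real.sqrt (Real.log X) = 2 * (1 / Real.sqrt (Real.log X)) := by ring
    rw [e] at hε0
    linarith
  set Zr : ℝ := (X : ℝ) ^ (ε / 2) with hZr
  have hZrs : Real.sqrt (Real.log X) ≤ Zr := by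
    have hlog : 0 ≤ Real.log X := Real.log_nonneg hX1'
    have e1 : Real.sqrt (Real.log X) ≤ Real.log X * (ε / 2) := by
      have e2 : Real.sqrt (Real.log X) = Real.log X * (1 / Real.sqrt (Real.log X)) := by
        rw [mul_one_div]
        exact (Real.div_sqrt).symm
      calc Real.sqrt (Real.log X) = Real.log X * (1 / Real.sqrt (Real.log X)) := e2
        _ ≤ Real.log X * (ε / 2) := mul_le_mul_of_nonneg_left hε2 hlog
    have e3 : Real.log X * (ε / 2) ≤ Zr := by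
      rw [hZr, Real.rpow_def_of_pos hX0]
      have := Real.add_one_le_exp (Real.log X * (ε / 2))
      linarith
    exact e1.trans e3
  have h6 : 6 ≤ Zr := ((le_max_left _ _).trans hX).trans hZrs
  have hZ0 : Z₀ ≤ Zr := ((le_max_right _ _).trans hX).trans hZrs
  set Zn : ℕ := ⌈Zr⌉₊ with hZn
  have hZn1 : Zr ≤ Zn := Nat.le_ceil _
  have hZn2 : (Zn : ℝ) < Zr + 1 := Nat.ceil_lt_add_one (by linarith)
  have hZnpos : 1 ≤ Zn := by
    have : (0 : ℝ) < Zn := by linarith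
    exact_mod_cast this
  have hcount := count_ge (fun n => P i n) Zn hZnpos (by
    intro M hM
    have hM' : Zr ≤ (M : ℝ) := hZn1.trans (by exact_mod_cast hM)
    obtain ⟨x, hx1, hx2, hx3⟩ := hZ Zr hZ0 M hM' i hi
    refine ⟨x, hx1, ?_, hx3⟩
    have : (x : ℝ) ≤ (M : ℝ) + Zn := by linarith
    exact_mod_cast this) X
  refine ⟨(Icc 1 X).filter (fun n => P i n), ?_, ?_⟩
  · intro n hn
    rw [Finset.mem_filter, Finset.mem_Icc] at hn
    exact ⟨hn.1.1, hn.1.2, hn.2⟩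
  · set K := ((Icc 1 X).filter (fun n => P i n)).card with hK
    have hZnR : (0 : ℝ) < Zn := by linarith
    have h1 : (X : ℝ) / Zn < ((X / Zn : ℕ) : ℝ) + 1 := by
      rw [div_lt_iff₀ hZnR]
      have := Nat.lt_div_mul_add (a := X) (b := Zn) hZnpos
      have h2 : (X : ℝ) < ((X / Zn * Zn + Zn : ℕ) : ℝ) := by exact_mod_cast this
      push_cast at h2
      linarith
    have h2 : ((X / Zn : ℕ) : ℝ) ≤ (K : ℝ) + 1 := by exact_mod_cast hcount
    have h3 : (X : ℝ) / (2 * Zr) ≤ X / Zn :=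
      div_le_div_of_nonneg_left hX0.le hZnR (by linarith)
    have h4 : (X : ℝ) = (X : ℝ) ^ (1 - ε) * (Zr * Zr) := by
      rw [hZr, ← Real.rpow_add hX0, ← Real.rpow_add hX0]
      have : 1 - ε + (ε / 2 + ε / 2) = 1 := by ring
      rw [this, Real.rpow_one]
    have h5 : (X : ℝ) / (2 * Zr) = (X : ℝ) ^ (1 - ε) * (Zr / 2) := by
      have hz : Zr ≠ 0 := by linarith
      rw [div_eq_iff (by positivity)]
      calc (X : ℝ) = (X : ℝ) ^ (1 - ε) * (Zr * Zr) := h4
        _ = _ := by ring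
    have h6' : 1 ≤ (X : ℝ) ^ (1 - ε) := Real.one_le_rpow hX1' (by linarith)
    have h7 : (X : ℝ) ^ (1 - ε) * 3 ≤ (X : ℝ) ^ (1 - ε) * (Zr / 2) :=
      mul_le_mul_of_nonneg_left (by linarith) (by linarith)
    linarith

/-- `ε / 16 * rec X ≤ rec (X ^ (ε / 2))` for large natural `X` -/
theorem rec_half : ∀ᶠ X : ℕ in atTop, ∀ ε : ℝ, 2 / Real.sqrt (Real.log X) ≤ ε → ε ≤ 1 →
    ε / 16 * rec X ≤ rec ((X : ℝ) ^ (ε / 2)) := by
  have tX : Tendsto (fun X : ℕ => (X : ℝ)) atTop atTop := tendsto_natCast_atTop_atTop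
  have tp : Tendsto (fun X : ℕ => Real.sqrt (Real.log X)) atTop atTop :=
    Real.tendsto_sqrt_atTop.comp (Real.tendsto_log_atTop.comp tX)
  filter_upwards [tX.eventually rec_power, tp.eventually_ge_atTop 1] with X hrec0 hs1 ε hε0 hε1
  have hε2 : 1 / Real.sqrt (Real.log X) ≤ ε / 2 := by
    have e : 2 / Real.sqrt (Real.log X) = 2 * (1 / Real.sqrt (Real.log X)) := by ring
    rw [e] at hε0
    linarith
  have := hrec0 (ε / 2) hε2 (by
    have : 0 < ε := lt_of_lt_of_le (by positivity) hε0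
    linarith)
  have e : ε / 2 / 8 * rec X = ε / 16 * rec X := by ring
  rw [e] at this
  exact this

end Pool.Agent.H683R3.SQ
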