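import Pool.Agent.H683R3.SQ.Freq2

/-! # Counting gaps between primes from one prime-free interval in every interval (helper683) -/

namespace Pool.Agent.H683R3.SQ

open Finset Filter

/-- the primes `p ≤ X` whose next prime is more than `H` away -/
noncomputable def longGaps (X : ℕ) (H : ℝ) : Set ℕ :=
  {p : ℕ | p ≤ X ∧ p.Prime ∧ ∀ q : ℕ, q.Prime → p < q → H < (q : ℝ) - p}

theorem longGaps_finite (X : ℕ) (H : ℝ) : (longGaps X H).Finite :=
  (Set.finite_Iic X).subset fun _ hp => hp.1

theorem gap_count (Z X : ℕ) (H : ℝ) (hZ : 1 ≤ Z)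
    (h : ∀ M : ℕ, Z ≤ M → ∃ m : ℕ, M < m ∧ m ≤ M + Z ∧
      ∀ q : ℕ, q.Prime → m < q → (m : ℝ) + H < q) :
    Nat.primeCounting X ≤ (2 * Z + 1) * (longGaps X H).ncard + 2 * Z := by
  classical
  choose! g hg1 hg2 hg3 using h
  set T : Finset ℕ := (longGaps_finite X H).toFinset with hT
  have hTcard : (longGaps X H).ncard = T.card := Set.ncard_eq_toFinset_card _ _
  rw [hTcard]
  set s : Finset ℕ := (Finset.range (X + 1)).filter (fun r => r.Prime ∧ r + 2 * Z ≤ X) with hs
  set F : ℕ → ℕ := fun r => Nat.findGreatest Nat.Prime (g ((r / Z + 1) * Z)) with hF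
  have key : ∀ r : ℕ, r.Prime → r + 2 * Z ≤ X →
      r ≤ F r ∧ F r ≤ r + 2 * Z ∧ (F r) ∈ longGaps X H := by
    intro r hr hrX
    set M : ℕ := (r / Z + 1) * Z with hM
    have hMZ : Z ≤ M := Nat.le_mul_of_pos_left Z (Nat.succ_pos _)
    have e : M = r / Z * Z + Z := by rw [hM]; ring
    have h1 : r < M := by
      rw [e]
      exact Nat.lt_div_mul_add (by omega)
    have h2 : M ≤ r + Z := by
      rw [e]
      have := Nat.div_mul_le_self r Z
      omega
    have h3 := hg1 M hMZ
    have h4 := hg2 M hMZ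
    have h5 : r ≤ g M := by omega
    have h6 : r ≤ F r := Nat.le_findGreatest h5 hr
    have h7 : F r ≤ g M := Nat.findGreatest_le _
    have h8 : (F r).Prime := Nat.findGreatest_spec (P := Nat.Prime) h5 hr
    refine ⟨h6, by omega, by omega, h8, fun q hq hlt => ?_⟩
    have h9 : g M < q := by
      by_contra hcon
      push Not at hcon
      have := Nat.le_findGreatest (P := Nat.Prime) hcon hq
      have h10 : q ≤ F r := this
      omega
    have h11 := hg3 M hMZ q hq h9
    have h12 : (F r : ℝ) ≤ g M := by exact_mod_cast h7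
    linarith
  have hmaps : ∀ r ∈ s, F r ∈ T := by
    intro r hr
    rw [hs, Finset.mem_filter] at hr
    rw [hT, Set.Finite.mem_toFinset]
    exact (key r hr.2.1 hr.2.2).2.2
  have hfib : ∀ p ∈ T, (s.filter (fun r => F r = p)).card ≤ 2 * Z + 1 := by
    intro p _
    have hsub : s.filter (fun r => F r = p) ⊆ Finset.Icc (p - 2 * Z) p := by
      intro r hr
      rw [Finset.mem_filter, hs, Finset.mem_filter] at hr
      obtain ⟨⟨-, h1, h2⟩, h3⟩ := hr
      obtain ⟨k1, k2, -⟩ := key r h1 h2
      rw [h3] at k1 k2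
      rw [Finset.mem_Icc]
      omega
    refine (Finset.card_le_card hsub).trans ?_
    rw [Nat.card_Icc]
    omega
  have hcard : s.card ≤ (2 * Z + 1) * T.card :=
    Finset.card_le_mul_card_image_of_maps_to hmaps (2 * Z + 1) hfib
  have hπ : Nat.primeCounting X ≤ s.card + 2 * Z := by
    have e : Nat.primeCounting X = ((Finset.range (X + 1)).filter Nat.Prime).card := by
      rw [Nat.primeCounting, Nat.primeCounting', Nat.count_eq_card_filter_range]
    rw [e]
    have hsub : (Finset.range (X + 1)).filter Nat.Prime ⊆ s ∪ Finset.Icc (X + 1 - 2 * Z) X := by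
      intro r hr
      rw [Finset.mem_filter, Finset.mem_range] at hr
      rw [Finset.mem_union, hs, Finset.mem_filter, Finset.mem_range, Finset.mem_Icc]
      by_cases h1 : r + 2 * Z ≤ X
      · exact Or.inl ⟨hr.1, hr.2, h1⟩
      · right
        omega
    refine (Finset.card_le_card hsub).trans ((Finset.card_union_le _ _).trans ?_)
    rw [Nat.card_Icc]
    omega
  omega

/-- Chebyshev: `X / (2 log X) ≤ π(X)` for large `X` -/
theorem pi_ge : ∀ᶠ X : ℕ in atTop, (X : ℝ) ≤ 2 * Real.log X * (Nat.primeCounting X : ℝ) := by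
  have tX : Tendsto (fun X : ℕ => (X : ℝ)) atTop atTop := tendsto_natCast_atTop_atTop
  have hlo := (Real.isLittleO_log_id_atTop.bound (show (0 : ℝ) < 1 / 32 by norm_num))
  filter_upwards [tX.eventually hlo, eventually_ge_atTop 32] with X h1 h32
  have hX : (32 : ℝ) ≤ X := by exact_mod_cast h32
  have h2 := Chebyshev.psi_ge X
  have h3 := Chebyshev.psi_le_primeCounting_mul_log X
  have hl : 0 ≤ Real.log (X : ℝ) := Real.log_nonneg (by linarith)
  rw [Real.norm_of_nonneg hl, id, Real.norm_of_nonneg (by linarith)] at h1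
  have h4 : Real.log ((X : ℝ) + 1) ≤ Real.log X + Real.log 2 := by
    rw [← Real.log_mul (by linarith) (by norm_num)]
    exact Real.log_le_log (by linarith) (by linarith)
  have h5 : (0.69 : ℝ) < Real.log 2 := by
    have := Real.log_two_gt_d9
    linarith
  have h6 : Real.log 2 < (0.7 : ℝ) := by
    have := Real.log_two_lt_d9
    linarith
  have h7 : 0.69 * (X : ℝ) ≤ X * Real.log 2 := by nlinarith
  linarith

end Pool.Agent.H683R3.SQ
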