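import Pool.Agent.H717R2.MQ.AE3
import Pool.Agent.H683R3.SQ.Freq2

/-! # Record prime gaps along `α n ^ θ` for almost every `α` (helper683) -/

namespace Pool.Agent.H683R3.SQ

open Finset Filter MeasureTheory
open Pool.Agent.H717R2.MQ (fl cS PS MT)

/-- the integers `m` without primes within `a * rec m` -/
def RG (a : ℝ) : Set ℕ := {m : ℕ | ∀ q : ℕ, q.Prime → a * rec m < |(q : ℝ) - m|}

theorem rec_mono : ∃ x₀ : ℝ, 1 ≤ x₀ ∧ ∀ x y : ℝ, x₀ ≤ x → x ≤ y → 0 ≤ rec x ∧ rec x ≤ rec y := by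
  have t1 : Tendsto (fun x : ℝ => Real.log (Real.log x)) atTop atTop :=
    Real.tendsto_log_atTop.comp Real.tendsto_log_atTop
  have t2 : Tendsto (fun x : ℝ => Real.log (Real.log (Real.log x))) atTop atTop :=
    Real.tendsto_log_atTop.comp t1
  have t3 : Tendsto (fun x : ℝ => Real.log (Real.log (Real.log (Real.log x)))) atTop atTop :=
    Real.tendsto_log_atTop.comp t2
  have hev : ∀ᶠ x : ℝ in atTop, 1 ≤ x ∧ 1 ≤ Real.log x ∧ Real.exp 1 ≤ Real.log (Real.log x) ∧
      1 ≤ Real.log (Real.log (Real.log x)) ∧ 1 ≤ Real.log (Real.log (Real.log (Real.log x))) := by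
    filter_upwards [eventually_ge_atTop (1 : ℝ), Real.tendsto_log_atTop.eventually_ge_atTop 1,
      t1.eventually_ge_atTop (Real.exp 1), t2.eventually_ge_atTop 1, t3.eventually_ge_atTop 1]
      with x h0 h1 h2 h3 h4
    exact ⟨h0, h1, h2, h3, h4⟩
  obtain ⟨x₀, hx₀⟩ := eventually_atTop.1 hev
  refine ⟨max x₀ 1, le_max_right _ _, fun x y hx hxy => ?_⟩
  obtain ⟨a0, a1, a2, a3, a4⟩ := hx₀ x ((le_max_left _ _).trans hx)
  obtain ⟨b0, b1, b2, b3, b4⟩ := hx₀ y (((le_max_left _ _).trans hx).trans hxy)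
  have l1 : Real.log x ≤ Real.log y := Real.log_le_log (by linarith) hxy
  have l2 : Real.log (Real.log x) ≤ Real.log (Real.log y) := Real.log_le_log (by linarith) l1
  have he : 0 < Real.exp 1 := Real.exp_pos 1
  have l3 : Real.log (Real.log (Real.log x)) ≤ Real.log (Real.log (Real.log y)) :=
    Real.log_le_log (by linarith) l2
  have l4 : Real.log (Real.log (Real.log (Real.log x))) ≤
      Real.log (Real.log (Real.log (Real.log y))) := Real.log_le_log (by linarith) l3
  set u := Real.log (Real.log x) with hu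
  set v := Real.log (Real.log y) with hv
  have hu0 : 0 < u := by linarith
  have hv0 : 0 < v := by linarith
  have m1 : u / Real.log u ≤ v / Real.log v := by
    have h := Real.log_div_self_antitoneOn (show Real.exp 1 ≤ u from a2)
      (show Real.exp 1 ≤ v from b2) l2
    have h' : Real.log v / v ≤ Real.log u / u := h
    rw [div_le_div_iff₀ hv0 hu0] at h'
    rw [div_le_div_iff₀ (by linarith) (by linarith)]
    nlinarith [h']
  have e : ∀ z : ℝ, rec z = Real.log z * (Real.log (Real.log z) /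
      Real.log (Real.log (Real.log z))) ^ 2 * Real.log (Real.log (Real.log (Real.log z))) := by
    intro z
    unfold rec
    rw [div_pow]
    ring
  rw [e x, e y, ← hu, ← hv]
  have p1 : 0 ≤ u / Real.log u := div_nonneg hu0.le (by linarith)
  have m2 : (u / Real.log u) ^ 2 ≤ (v / Real.log v) ^ 2 := pow_le_pow_left₀ p1 m1 2
  refine ⟨?_, ?_⟩
  · have : 0 ≤ Real.log (Real.log u) := by linarith
    have h0 : 0 ≤ Real.log x := by linarith
    positivity
  · have h0 : 0 ≤ Real.log x := by linarith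
    have h1 : Real.log x * (u / Real.log u) ^ 2 ≤ Real.log y * (v / Real.log v) ^ 2 :=
      mul_le_mul l1 m2 (by positivity) (by linarith)
    exact mul_le_mul h1 l4 (by linarith) (by
      have : 0 ≤ Real.log y := by linarith
      positivity)

/-- `K x ^ s ≤ c x ^ t` for large `x` -/
theorem pow_beats {c s t : ℝ} (hc : 0 < c) (hst : s < t) (K : ℝ) :
    ∀ᶠ x : ℝ in atTop, K * x ^ s ≤ c * x ^ t := by
  have h := (tendsto_rpow_atTop (show 0 < t - s by linarith)).eventually_ge_atTop (K / c)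
  filter_upwards [h, eventually_gt_atTop 0] with x hx hx0
  have e : x ^ t = x ^ s * x ^ (t - s) := by
    rw [← Real.rpow_add hx0]
    congr 1
    ring
  rw [e]
  have h1 : K ≤ c * x ^ (t - s) := by
    rw [div_le_iff₀ hc] at hx
    linarith
  have h2 : 0 < x ^ s := Real.rpow_pos_of_pos hx0 s
  calc K * x ^ s ≤ (c * x ^ (t - s)) * x ^ s := mul_le_mul_of_nonneg_right h1 h2.le
    _ = _ := by ring

theorem RG_count {c : ℝ} (hc : 0 < c) (H : ∀ᶠ Z : ℝ in atTop, ∀ M : ℕ, Z ≤ M →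
      ∃ x : ℕ, M < x ∧ (x : ℝ) ≤ M + Z ∧ ∀ q : ℕ, q.Prime → c * rec Z < |(q : ℝ) - x|)
    {δ : ℝ} (hδ : 0 < δ) (hδ1 : δ ≤ 1) :
    ∀ᶠ X : ℕ in atTop, (X : ℝ) ^ (1 - δ) ≤ ((PS (RG (c / 32 * δ)) 0 X).card : ℝ) := by
  classical
  have hf := freq (fun n a => ∀ q : ℕ, q.Prime → a < |(q : ℝ) - n|)
    (fun _ _ _ hab h q hq => lt_of_le_of_lt hab (h q hq)) c hc H
  obtain ⟨x₀, hx₀1, hmono⟩ := rec_mono
  have tX : Tendsto (fun X : ℕ => (X : ℝ)) atTop atTop := tendsto_natCast_atTop_atTop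
  have tp : Tendsto (fun X : ℕ => Real.sqrt (Real.log X)) atTop atTop :=
    Real.tendsto_sqrt_atTop.comp (Real.tendsto_log_atTop.comp tX)
  have hb := tX.eventually (pow_beats (c := 1 / 2) (s := 1 - δ) (t := 1 - δ / 2) (by norm_num)
    (by linarith) 1)
  have hb2 := tX.eventually (pow_beats (c := 1 / 2) (s := 0) (t := 1 - δ / 2) (by norm_num)
    (by linarith) (x₀ + 1))
  filter_upwards [hf, tp.eventually_ge_atTop (4 / δ), hb, hb2, eventually_ge_atTop 1]
    with X hX hs h1 h2 hX1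
  have hs0 : 0 < Real.sqrt (Real.log X) := lt_of_lt_of_le (by positivity) hs
  have hδ2 : 2 / Real.sqrt (Real.log X) ≤ δ / 2 := by
    rw [div_le_iff₀ hs0]
    rw [div_le_iff₀ hδ] at hs
    linarith
  obtain ⟨S, hS1, hS2⟩ := hX (δ / 2) hδ2 (by linarith)
  have hsub : S ⊆ PS (RG (c / 32 * δ)) 0 X ∪ Finset.range (⌊x₀⌋₊ + 1) := by
    intro n hn
    obtain ⟨g1, g2, g3⟩ := hS1 n hn
    rw [Finset.mem_union]
    by_cases hx : x₀ ≤ (n : ℝ)
    · left
      unfold PS
      rw [Finset.mem_filter, Finset.mem_Ioc]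
      refine ⟨⟨by omega, g2⟩, fun q hq => lt_of_le_of_lt ?_ (g3 q hq)⟩
      have g4 := (hmono n X hx (by exact_mod_cast g2)).2
      have e1 : c / 16 * (δ / 2) * rec X = c / 32 * δ * rec X := by ring
      rw [e1]
      exact mul_le_mul_of_nonneg_left g4 (by positivity)
    · right
      push Not at hx
      rw [Finset.mem_range]
      have := Nat.le_floor hx.le
      omega
  have hcard : S.card ≤ (PS (RG (c / 32 * δ)) 0 X).card + (⌊x₀⌋₊ + 1) := by
    refine (Finset.card_le_card hsub).trans ((Finset.card_union_le _ _).trans ?_)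
    rw [Finset.card_range]
  have hcard' : (S.card : ℝ) ≤ ((PS (RG (c / 32 * δ)) 0 X).card : ℝ) + (⌊x₀⌋₊ + 1) := by
    exact_mod_cast hcard
  have hfl : ((⌊x₀⌋₊ : ℕ) : ℝ) ≤ x₀ := Nat.floor_le (by linarith)
  rw [Real.rpow_zero, mul_one] at h2
  rw [one_mul] at h1
  linarith

end Pool.Agent.H683R3.SQ
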