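import Pool.Agent.H683R3.SQ.Metric

/-! # Record prime gaps along `α n ^ θ` for almost every `α`: the count (helper683) -/

namespace Pool.Agent.H683R3.SQ

open Finset Filter MeasureTheory
open Pool.Agent.H717R2.MQ (fl cS PS MT)

theorem MT_ge {θ α : ℝ} (hθ : 1 ≤ θ) (hα : 0 < α) (S : Set ℕ) (Z : ℕ) (hZ : 1 ≤ Z) :
    1 / θ * α ^ (-(1 / θ)) * (Z : ℝ) ^ (1 / θ - 1) * ((PS S 0 Z).card : ℝ) ≤ MT θ (PS S 0 Z) α := by
  classical
  unfold MT
  have hθ0 : 0 < θ := by linarith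
  have hZ0 : (0 : ℝ) < Z := by exact_mod_cast hZ
  have hexp : 1 / θ - 1 ≤ 0 := by
    have : 1 / θ ≤ 1 := by
      rw [div_le_one hθ0]
      exact hθ
    linarith
  have hterm : ∀ p ∈ PS S 0 Z, 1 / θ * α ^ (-(1 / θ)) * (Z : ℝ) ^ (1 / θ - 1) ≤
      (1 / (θ * (p : ℝ))) * ((p : ℝ) / α) ^ (1 / θ) := by
    intro p hp
    unfold PS at hp
    rw [Finset.mem_filter, Finset.mem_Ioc] at hp
    have hp0 : (0 : ℝ) < p := by exact_mod_cast hp.1.1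
    have hpZ : (p : ℝ) ≤ Z := by exact_mod_cast hp.1.2
    have e1 : ((p : ℝ) / α) ^ (1 / θ) = (p : ℝ) ^ (1 / θ) * α ^ (-(1 / θ)) := by
      rw [Real.div_rpow hp0.le hα.le, Real.rpow_neg hα.le, div_eq_mul_inv]
    have e2 : (1 / (θ * (p : ℝ))) * ((p : ℝ) / α) ^ (1 / θ) =
        1 / θ * α ^ (-(1 / θ)) * (p : ℝ) ^ (1 / θ - 1) := by
      rw [e1, Real.rpow_sub_one hp0.ne']
      field_simp
    rw [e2]
    refine mul_le_mul_of_nonneg_left ?_ (by positivity)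
    exact Real.rpow_le_rpow_of_nonpos hp0 hpZ hexp
  calc 1 / θ * α ^ (-(1 / θ)) * (Z : ℝ) ^ (1 / θ - 1) * ((PS S 0 Z).card : ℝ)
      = ∑ _p ∈ PS S 0 Z, 1 / θ * α ^ (-(1 / θ)) * (Z : ℝ) ^ (1 / θ - 1) := by
        rw [Finset.sum_const, nsmul_eq_mul]
        ring
    _ ≤ _ := Finset.sum_le_sum hterm

/-- lower bound for the number of `n` with `⌊α n ^ θ⌋ ∈ S`, `⌊α n ^ θ⌋ ≤ Z` -/
theorem cS_lower {θ α κ δ : ℝ} (hθ : 1 ≤ θ) (hα : 0 < α) (hδκ : δ < κ) (S : Set ℕ)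
    (hS : ∀ᶠ X : ℕ in atTop, (X : ℝ) ^ (1 - δ) ≤ ((PS S 0 X).card : ℝ)) {C : ℝ}
    (hC : ∀ Z : ℕ, 1 ≤ Z →
      |cS θ 0 α (↑(PS S 0 Z) : Set ℕ) - MT θ (PS S 0 Z) α| ≤ C * (Z : ℝ) ^ (1 / θ - κ)) :
    ∃ c₁ : ℝ, 0 < c₁ ∧ ∀ᶠ Z : ℕ in atTop, c₁ * (Z : ℝ) ^ (1 / θ - δ) ≤
      cS θ 0 α (↑(PS S 0 Z) : Set ℕ) := by
  have hθ0 : 0 < θ := by linarith
  have tX : Tendsto (fun X : ℕ => (X : ℝ)) atTop atTop := tendsto_natCast_atTop_atTop
  set c₀ : ℝ := 1 / θ * α ^ (-(1 / θ)) with hc₀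
  have hc₀p : 0 < c₀ := by positivity
  refine ⟨c₀ / 2, by positivity, ?_⟩
  filter_upwards [hS, tX.eventually (pow_beats (c := c₀ / 2) (s := 1 / θ - κ) (t := 1 / θ - δ)
    (by positivity) (by linarith) C), eventually_ge_atTop 1] with Z h1 h2 hZ
  have hZ0 : (0 : ℝ) < Z := by exact_mod_cast hZ
  have h3 := MT_ge hθ hα S Z hZ
  have h4 : c₀ * (Z : ℝ) ^ (1 / θ - δ) ≤ MT θ (PS S 0 Z) α := by
    refine le_trans ?_ h3
    have e : (Z : ℝ) ^ (1 / θ - δ) = (Z : ℝ) ^ (1 / θ - 1) * (Z : ℝ) ^ (1 - δ) := by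
      rw [← Real.rpow_add hZ0]
      congr 1
      ring
    rw [e, ← mul_assoc]
    exact mul_le_mul_of_nonneg_left h1 (by positivity)
  have h5 := (abs_le.1 (hC Z hZ)).1
  linarith

theorem metric_core {a : ℝ} (ha : 0 < a)
    (hcount : ∀ δ : ℝ, 0 < δ → δ ≤ 1 →
      ∀ᶠ X : ℕ in atTop, (X : ℝ) ^ (1 - δ) ≤ ((PS (RG (a * δ)) 0 X).card : ℝ))
    (θ : ℝ) (hθ : 1 ≤ θ) : ∃ c : ℝ, 0 < c ∧ ∀ᵐ α : ℝ, 0 < α → ∀ ε : ℝ, 0 < ε → ε ≤ 1 →
      ∀ᶠ N : ℕ in atTop, (N : ℝ) ^ (1 - ε) ≤ ({n : ℕ | n ≤ N ∧ ∀ q : ℕ, q.Prime →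
        c * ε * rec N < |(q : ℝ) - α * (n : ℝ) ^ θ|}.ncard : ℝ) := by
  classical
  have hθ0 : 0 < θ := by linarith
  obtain ⟨κ, hκ, hae⟩ := Pool.Agent.H717R2.MQ.ae_asymp θ hθ
  set δ : ℕ → ℝ := fun k => min (κ / 2) (1 / (4 * θ * (k + 1))) with hδdef
  have hδpos : ∀ k, 0 < δ k := fun k => lt_min (by positivity) (by positivity)
  have hδ4 : ∀ k : ℕ, δ k ≤ 1 / (4 * θ * (k + 1)) := fun k => min_le_right _ _
  have hδκ : ∀ k : ℕ, δ k ≤ κ / 2 := fun k => min_le_left _ _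
  have hδ1 : ∀ k : ℕ, δ k ≤ 1 := by
    intro k
    refine (hδ4 k).trans ?_
    rw [div_le_one (by positivity)]
    have : (0 : ℝ) ≤ k := Nat.cast_nonneg k
    nlinarith
  have hall : ∀ᵐ α : ℝ, ∀ k : ℕ, 0 < α → ∃ C : ℝ, ∀ Z : ℕ, 1 ≤ Z →
      |cS θ 0 α (↑(PS (RG (a * δ k)) 0 Z) : Set ℕ) - MT θ (PS (RG (a * δ k)) 0 Z) α| ≤
        C * (Z : ℝ) ^ (1 / θ - κ) := by
    rw [ae_all_iff]
    exact fun k => hae 0 le_rfl zero_le_one (RG (a * δ k))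
  set μ : ℝ := min (κ / 2) (1 / (8 * θ)) with hμ
  have hμ0 : 0 < μ := lt_min (by positivity) (by positivity)
  refine ⟨a * μ / 64, by positivity, ?_⟩
  obtain ⟨x₀, hx₀1, hmono⟩ := rec_mono
  filter_upwards [hall] with α hα hα0 ε hε hε1
  set k : ℕ := ⌊1 / ε⌋₊ with hk
  have hk1 : 1 / ((k : ℝ) + 1) < ε := by
    have := Nat.lt_floor_add_one (1 / ε)
    rw [div_lt_iff₀ hε] at this
    rw [div_lt_iff₀ (by positivity)]
    linarith
  have hk2 : ε / 2 ≤ 1 / ((k : ℝ) + 1) := by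
    have h1 : (k : ℝ) ≤ 1 / ε := Nat.floor_le (by positivity)
    have h2 : (1 : ℝ) ≤ 1 / ε := by
      rw [le_div_iff₀ hε]
      linarith
    rw [div_le_div_iff₀ (by norm_num) (by positivity)]
    have h3 : (k : ℝ) + 1 ≤ 2 * (1 / ε) := by linarith
    have h4 := mul_le_mul_of_nonneg_left h3 hε.le
    have h5 : ε * (2 * (1 / ε)) = 2 := by
      field_simp
    linarith
  have hδε : θ * δ k ≤ ε / 4 := by
    have h1 : θ * δ k ≤ θ * (1 / (4 * θ * (k + 1))) := mul_le_mul_of_nonneg_left (hδ4 k) hθ0.le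
    have h2 : θ * (1 / (4 * θ * ((k : ℝ) + 1))) = (1 / ((k : ℝ) + 1)) / 4 := by
      field_simp
    rw [h2] at h1
    linarith
  have hμδ : ε * μ ≤ δ k := by
    refine le_min ?_ ?_
    · have h1 : μ ≤ κ / 2 := min_le_left _ _
      nlinarith
    · have h1 : μ ≤ 1 / (8 * θ) := min_le_right _ _
      have h2 : ε * μ ≤ ε * (1 / (8 * θ)) := mul_le_mul_of_nonneg_left h1 hε.le
      have h3 : ε * (1 / (8 * θ)) = (ε / 2) * (1 / (4 * θ)) := by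
        field_simp
        norm_num
      have h4 : (1 : ℝ) / (4 * θ * ((k : ℝ) + 1)) = (1 / ((k : ℝ) + 1)) * (1 / (4 * θ)) := by
        field_simp
      rw [h4]
      rw [h3] at h2
      exact h2.trans (mul_le_mul_of_nonneg_right hk2 (by positivity))
  obtain ⟨C, hC⟩ := hα k hα0
  obtain ⟨c₁, hc₁, hlow⟩ := cS_lower hθ hα0 (by linarith [hδκ k]) (RG (a * δ k))
    (hcount (δ k) (hδpos k) (hδ1 k)) hC
  -- the scale `Z`
  have tX : Tendsto (fun N : ℕ => (N : ℝ)) atTop atTop := tendsto_natCast_atTop_atTop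
  have hZt : Tendsto (fun N : ℕ => ⌊α * (N : ℝ) ^ θ⌋₊ - 1) atTop atTop := by
    refine (tendsto_sub_atTop_nat 1).comp ?_
    refine tendsto_nat_floor_atTop.comp ?_
    exact (((tendsto_rpow_atTop hθ0).comp tX).const_mul_atTop hα0)
  have hrec32 := tX.eventually (rec_power)
  have tlog : Tendsto (fun N : ℕ => Real.log (N : ℝ)) atTop atTop :=
    Real.tendsto_log_atTop.comp tX
  have tsq : Tendsto (fun N : ℕ => Real.sqrt (Real.log N)) atTop atTop :=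
    Real.tendsto_sqrt_atTop.comp tlog
  have hrl := tX.eventually (rec_large (64 / (a * δ k)))
  have e14 : ∀ᶠ N : ℕ in atTop, ((N : ℝ)) ^ (1 / 4 : ℝ) ≥ max x₀ 1 :=
    ((tendsto_rpow_atTop (show (0 : ℝ) < 1 / 4 by norm_num)).comp tX).eventually_ge_atTop _
  have hpb1 := tX.eventually (pow_beats (c := α) (s := 1 / 4) (t := 1 / 2) hα0 (by norm_num) 2)
  have hpb2 := tX.eventually (pow_beats (c := α / 2) (s := 0) (t := θ) (by positivity) hθ0 2)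
  set c₂ : ℝ := c₁ * (α / 2) ^ (1 / θ - δ k) with hc₂
  have hc₂0 : 0 < c₂ := by positivity
  have hexp0 : 0 ≤ 1 / θ - δ k := by
    have h1 : θ * δ k ≤ 1 := by linarith
    have h2 : δ k ≤ 1 / θ := by
      rw [le_div_iff₀ hθ0]
      linarith
    linarith
  have hpb3 := tX.eventually (pow_beats (c := c₂ / 2) (s := 1 - ε) (t := 1 - θ * δ k)
    (by positivity) (by linarith) 1)
  have hpb4 := tX.eventually (pow_beats (c := c₂ / 2) (s := 1 / 2) (t := 1 - θ * δ k)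
    (by positivity) (by linarith) 2)
  filter_upwards [hZt.eventually hlow, hrec32, tsq.eventually_ge_atTop 4, hrl, e14, hpb1, hpb2,
    hpb3, hpb4, eventually_ge_atTop 1, tlog.eventually_ge_atTop 1]
    with N g1 g2 g3 g4 g5 g6 g7 g8 g9 g10 g11
  have hN0 : (0 : ℝ) < N := by exact_mod_cast g10
  have hN1 : (1 : ℝ) ≤ N := by exact_mod_cast g10
  set Z : ℕ := ⌊α * (N : ℝ) ^ θ⌋₊ - 1 with hZ
  rw [Real.rpow_zero, mul_one] at g7
  have hfl1 : α * (N : ℝ) ^ θ < (⌊α * (N : ℝ) ^ θ⌋₊ : ℝ) + 1 := Nat.lt_floor_add_one _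
  have hfl2 : ((⌊α * (N : ℝ) ^ θ⌋₊ : ℕ) : ℝ) ≤ α * (N : ℝ) ^ θ := Nat.floor_le (by positivity)
  have hfl3 : 1 ≤ ⌊α * (N : ℝ) ^ θ⌋₊ := by
    have : (0 : ℝ) < (⌊α * (N : ℝ) ^ θ⌋₊ : ℝ) := by linarith
    exact_mod_cast this
  have hZcast : (Z : ℝ) = (⌊α * (N : ℝ) ^ θ⌋₊ : ℝ) - 1 := by
    rw [hZ, Nat.cast_sub hfl3, Nat.cast_one]
  have hZlow : α / 2 * (N : ℝ) ^ θ ≤ Z := by
    rw [hZcast]
    linarith
  -- lower bound for cS
  have h1 : c₂ * (N : ℝ) ^ (1 - θ * δ k) ≤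
      cS θ 0 α (↑(PS (RG (a * δ k)) 0 Z) : Set ℕ) := by
    refine le_trans ?_ g1
    have e1 : (α / 2 * (N : ℝ) ^ θ) ^ (1 / θ - δ k) =
        (α / 2) ^ (1 / θ - δ k) * (N : ℝ) ^ (1 - θ * δ k) := by
      rw [Real.mul_rpow (by positivity) (by positivity), ← Real.rpow_mul hN0.le]
      congr 2
      field_simp
    have e2 : (α / 2 * (N : ℝ) ^ θ) ^ (1 / θ - δ k) ≤ (Z : ℝ) ^ (1 / θ - δ k) :=
      Real.rpow_le_rpow (by positivity) hZlow hexp0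
    rw [e1] at e2
    have e3 := mul_le_mul_of_nonneg_left e2 hc₁.le
    calc c₂ * (N : ℝ) ^ (1 - θ * δ k) =
        c₁ * ((α / 2) ^ (1 / θ - δ k) * (N : ℝ) ^ (1 - θ * δ k)) := by
          rw [hc₂]; ring
      _ ≤ _ := e3
  -- inclusion
  set B : Set ℕ := {n : ℕ | n ≤ N ∧ ∀ q : ℕ, q.Prime →
        a * μ / 64 * ε * rec N < |(q : ℝ) - α * (n : ℝ) ^ θ|} with hB
  have hBfin : B.Finite := (Set.finite_Iic N).subset fun n hn => hn.1
  set r : ℕ := ⌊(N : ℝ) ^ (1 / 2 : ℝ)⌋₊ with hr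
  have hsub : {n : ℕ | 1 ≤ n ∧ fl θ 0 α n ∈ (↑(PS (RG (a * δ k)) 0 Z) : Set ℕ)} ⊆
      (↑(Finset.range (r + 1)) : Set ℕ) ∪ B := by
    rintro n ⟨hn1, hn2⟩
    rw [Finset.mem_coe] at hn2
    unfold PS at hn2
    rw [Finset.mem_filter, Finset.mem_Ioc] at hn2
    obtain ⟨⟨hm0, hmZ⟩, hmS⟩ := hn2
    rw [Set.mem_union, Finset.mem_coe, Finset.mem_range]
    by_cases hnr : n < r + 1
    · exact Or.inl hnr
    right
    have hn0 : (0 : ℝ) < n := by exact_mod_cast hn1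
    have hfl : fl θ 0 α n = ⌊α * (n : ℝ) ^ θ⌋₊ := by
      unfold Pool.Agent.H717R2.MQ.fl
      rw [add_zero]
    set m : ℕ := fl θ 0 α n with hm
    have hm1 : (m : ℝ) ≤ α * (n : ℝ) ^ θ := by
      rw [hfl]
      exact Nat.floor_le (by positivity)
    have hm2 : α * (n : ℝ) ^ θ < (m : ℝ) + 1 := by
      rw [hfl]
      exact Nat.lt_floor_add_one _
    have hmZ' : (m : ℝ) ≤ Z := by exact_mod_cast hmZ
    have hnN : n ≤ N := by
      have h2 : α * (n : ℝ) ^ θ < α * (N : ℝ) ^ θ := by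
        rw [hZcast] at hmZ'
        linarith
      have h3 : (n : ℝ) ^ θ < (N : ℝ) ^ θ := lt_of_mul_lt_mul_left h2 hα0.le
      have h4 : (n : ℝ) < N := (Real.rpow_lt_rpow_iff hn0.le hN0.le hθ0).1 h3
      exact_mod_cast h4.le
    refine ⟨hnN, fun q hq => ?_⟩
    have hnr' : (N : ℝ) ^ (1 / 2 : ℝ) < n := by
      have h2 : (N : ℝ) ^ (1 / 2 : ℝ) < (r : ℝ) + 1 := Nat.lt_floor_add_one _
      have h3 : ((r + 1 : ℕ) : ℝ) ≤ n := by
        push Not at hnr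
        exact_mod_cast hnr
      push_cast at h3
      linarith
    have hn1' : (1 : ℝ) ≤ n := by exact_mod_cast hn1
    have hnθ : (n : ℝ) ≤ (n : ℝ) ^ θ := by
      calc (n : ℝ) = (n : ℝ) ^ (1 : ℝ) := (Real.rpow_one _).symm
        _ ≤ (n : ℝ) ^ θ := Real.rpow_le_rpow_of_exponent_le hn1' hθ
    have h14 : (N : ℝ) ^ (1 / 4 : ℝ) ≤ m := by
      have h2 : α * (N : ℝ) ^ (1 / 2 : ℝ) ≤ α * (n : ℝ) ^ θ :=
        mul_le_mul_of_nonneg_left (hnr'.le.trans hnθ) hα0.le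
      have h3 : (1 : ℝ) ≤ (N : ℝ) ^ (1 / 4 : ℝ) := (le_max_right _ _).trans g5
      linarith
    have hx0 : x₀ ≤ (N : ℝ) ^ (1 / 4 : ℝ) := (le_max_left _ _).trans g5
    have hr1 := (hmono _ _ hx0 h14).2
    have hr2 := g2 (1 / 4) (by
      rw [div_le_div_iff₀ (by linarith) (by norm_num)]
      linarith) (by norm_num)
    have hr3 : rec N / 32 ≤ rec m := by
      have e : (1 / 4 : ℝ) / 8 * rec N = rec N / 32 := by ring
      rw [e] at hr2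
      exact hr2.trans hr1
    have hr4 : 64 ≤ a * δ k * rec N := by
      have h2 := g4.1
      have hpos : 0 < a * δ k := mul_pos ha (hδpos k)
      have h3 := mul_le_mul_of_nonneg_left h2 hpos.le
      have e : a * δ k * (64 / (a * δ k) * Real.log (N : ℝ)) = 64 * Real.log (N : ℝ) := by
        have e0 : ∀ D L : ℝ, D ≠ 0 → D * (64 / D * L) = 64 * L := by
          intro D L hD
          field_simp
        exact e0 _ _ hpos.ne'
      rw [e] at h3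
      have g11' : 1 ≤ Real.log (N : ℝ) := g11
      linarith
    have hq1 := hmS q hq
    have hq2 : a * δ k * (rec N / 32) ≤ a * δ k * rec m :=
      mul_le_mul_of_nonneg_left hr3 (mul_pos ha (hδpos k)).le
    have hrecN : 0 ≤ rec N := by
      by_contra hneg
      push Not at hneg
      have : a * δ k * rec N < 0 := mul_neg_of_pos_of_neg (mul_pos ha (hδpos k)) hneg
      linarith
    have hq3 : a * μ / 64 * ε * rec N ≤ a * δ k * rec N / 64 := by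
      have h2 : a * (ε * μ) * rec N ≤ a * δ k * rec N :=
        mul_le_mul_of_nonneg_right (mul_le_mul_of_nonneg_left hμδ ha.le) hrecN
      have e : a * μ / 64 * ε * rec N = a * (ε * μ) * rec N / 64 := by ring
      rw [e]
      linarith
    have hq4 : |(q : ℝ) - m| ≤ |(q : ℝ) - α * (n : ℝ) ^ θ| + |α * (n : ℝ) ^ θ - m| := by
      have : (q : ℝ) - m = ((q : ℝ) - α * (n : ℝ) ^ θ) + (α * (n : ℝ) ^ θ - m) := by ring
      rw [this]
      exact abs_add_le _ _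
    have hq5 : |α * (n : ℝ) ^ θ - m| ≤ 1 := by
      rw [abs_le]
      constructor <;> linarith
    have hq6 : a * δ k * (rec N / 32) = a * δ k * rec N / 64 + a * δ k * rec N / 64 := by ring
    linarith
  have hle : cS θ 0 α (↑(PS (RG (a * δ k)) 0 Z) : Set ℕ) ≤ (r : ℝ) + 1 + (B.ncard : ℝ) := by
    unfold Pool.Agent.H717R2.MQ.cS
    have h2 := Set.ncard_le_ncard hsub ((Finset.finite_toSet _).union hBfin)
    have h3 := Set.ncard_union_le (↑(Finset.range (r + 1)) : Set ℕ) B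
    rw [Set.ncard_coe_finset, Finset.card_range] at h3
    have h4 := h2.trans h3
    exact_mod_cast h4
  have hrle : (r : ℝ) ≤ (N : ℝ) ^ (1 / 2 : ℝ) := Nat.floor_le (by positivity)
  have h12 : (1 : ℝ) ≤ (N : ℝ) ^ (1 / 2 : ℝ) := Real.one_le_rpow hN1 (by norm_num)
  rw [one_mul] at g8
  linarith

end Pool.Agent.H683R3.SQ
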